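import Pool.Agent.H86.IR.Targets2

set_option autoImplicit false

namespace Pool.Agent.H47.IR

open Pool.Agent.H86.IR

private lemma wt_sum (N : ℕ) (hN : 1 ≤ N) : ∑ k ∈ Finset.range (N + 1), wt N k = 0 := by
  obtain ⟨M, rfl⟩ : ∃ M, N = M + 1 := ⟨N - 1, by omega⟩
  rw [Finset.sum_range_succ, Finset.sum_range_succ']
  have a1 : ∑ k ∈ Finset.range M, wt (M + 1) (k + 1) =
      ∑ i ∈ Finset.range M, (-1 : ℝ) ^ (i + 1) := by
    refine Finset.sum_congr rfl fun k hk => ?_
    have := Finset.mem_range.mp hk
    unfold wt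
    rw [if_neg (by omega), if_neg (by omega)]
  have a2 : wt (M + 1) 0 = 1 / 2 := by simp [wt]
  have a3 : wt (M + 1) (M + 1) = (-1 : ℝ) ^ (M + 1) / 2 := by simp [wt]
  rw [a1, a2, a3]
  clear a1 a2 a3
  induction M with
  | zero => norm_num
  | succ n ih =>
    have ih' := ih (by omega)
    rw [Finset.sum_range_succ]
    have : (-1 : ℝ) ^ (n + 1 + 1) = -(-1) ^ (n + 1) := by ring
    rw [this]
    linarith

private lemma wt_sq (N : ℕ) (hN : 1 ≤ N) :
    ∑ k ∈ Finset.range (N + 1), wt N k * wt N k = N - 1 / 2 := by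
  obtain ⟨M, rfl⟩ : ∃ M, N = M + 1 := ⟨N - 1, by omega⟩
  rw [Finset.sum_range_succ, Finset.sum_range_succ']
  have hs : ∀ n : ℕ, (-1 : ℝ) ^ n * (-1) ^ n = 1 := by
    intro n
    rw [← mul_pow]
    norm_num
  have a1 : ∑ k ∈ Finset.range M, wt (M + 1) (k + 1) * wt (M + 1) (k + 1) =
      ∑ i ∈ Finset.range M, (1 : ℝ) := by
    refine Finset.sum_congr rfl fun k hk => ?_
    have := Finset.mem_range.mp hk
    unfold wt
    rw [if_neg (by omega), if_neg (by omega)]
    exact hs _
  have a2 : wt (M + 1) 0 = 1 / 2 := by simp [wt]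
  have a3 : wt (M + 1) (M + 1) = (-1 : ℝ) ^ (M + 1) / 2 := by simp [wt]
  rw [a1, a2, a3]
  have := hs (M + 1)
  simp only [Finset.sum_const, Finset.card_range, nsmul_eq_mul, mul_one]
  push_cast
  linarith

/-- KX: the key inequality, rescaled -/
theorem kx (hKI : T_KI) : T_KX := by
  intro N x hN hm
  have hL : 0 < x N - x 0 := sub_pos.mpr (hm 0 N (by omega) le_rfl)
  obtain ⟨L, hLd⟩ : ∃ L, L = x N - x 0 := ⟨_, rfl⟩
  rw [← hLd] at hL ⊢
  have hpi := Real.pi_pos
  obtain ⟨t, ht⟩ : ∃ t : ℕ → ℝ, t = fun k => Real.pi * (x k - x 0) / L := ⟨_, rfl⟩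
  have htk : ∀ k, t k = Real.pi * (x k - x 0) / L := fun k => by rw [ht]
  have hTT : TT N t := by
    refine ⟨hN, by rw [htk]; simp, ?_, ?_⟩
    · rw [htk, ← hLd]
      field_simp
    · intro i j hij hj
      rw [htk, htk]
      have := hm i j hij hj
      apply div_lt_div_of_pos_right _ hL
      apply mul_lt_mul_of_pos_left _ hpi
      linarith
  have hK := hKI N t hTT
  have hlog : ∀ k ∈ Finset.range (N + 1), ∀ j ∈ Finset.range (N + 1),
      Real.log |x k - x j| = Real.log |t k - t j| + (if k = j then 0 else Real.log (L / Real.pi)) := by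
    intro k hk j hj
    by_cases hkj : k = j
    · subst hkj
      simp
    · rw [if_neg hkj]
      have hne : x k - x j ≠ 0 := by
        have hk' := Finset.mem_range.mp hk
        have hj' := Finset.mem_range.mp hj
        rcases lt_or_gt_of_ne hkj with h | h
        · have := hm k j h (by omega)
          intro h0
          linarith
        · have := hm j k h (by omega)
          intro h0
          linarith
      have e : x k - x j = (t k - t j) * (L / Real.pi) := by
        rw [htk, htk]
        field_simp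
        ring
      have hne' : t k - t j ≠ 0 := by
        intro h0
        apply hne
        rw [e, h0, zero_mul]
      rw [e, abs_mul, abs_of_pos (div_pos hL hpi), Real.log_mul (abs_ne_zero.mpr hne')
        (div_pos hL hpi).ne']
  have hsum : ∑ k ∈ Finset.range (N + 1), ∑ j ∈ Finset.range (N + 1), wt N k * wt N j *
      Real.log |x k - x j| = ∑ k ∈ Finset.range (N + 1), ∑ j ∈ Finset.range (N + 1),
        wt N k * wt N j * Real.log |t k - t j| - (N - 1 / 2) * Real.log (L / Real.pi) := by
    have e1 : ∑ k ∈ Finset.range (N + 1), ∑ j ∈ Finset.range (N + 1), wt N k * wt N j *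
        Real.log |x k - x j| = ∑ k ∈ Finset.range (N + 1), ∑ j ∈ Finset.range (N + 1),
        (wt N k * wt N j * Real.log |t k - t j| + (wt N k * wt N j * Real.log (L / Real.pi) -
          if k = j then wt N k * wt N j * Real.log (L / Real.pi) else 0)) := by
      refine Finset.sum_congr rfl fun k hk => Finset.sum_congr rfl fun j hj => ?_
      rw [hlog k hk j hj]
      split_ifs <;> ring
    rw [e1]
    simp_rw [Finset.sum_add_distrib, Finset.sum_sub_distrib]
    have e2 : ∑ k ∈ Finset.range (N + 1), ∑ j ∈ Finset.range (N + 1),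
        wt N k * wt N j * Real.log (L / Real.pi) = 0 := by
      have : ∀ k ∈ Finset.range (N + 1), ∑ j ∈ Finset.range (N + 1),
          wt N k * wt N j * Real.log (L / Real.pi) = 0 := by
        intro k _
        rw [← Finset.sum_mul, ← Finset.mul_sum, wt_sum N hN]
        ring
      exact Finset.sum_eq_zero this
    have e3 : ∑ k ∈ Finset.range (N + 1), ∑ j ∈ Finset.range (N + 1),
        (if k = j then wt N k * wt N j * Real.log (L / Real.pi) else 0) =
        (N - 1 / 2) * Real.log (L / Real.pi) := by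
      rw [← wt_sq N hN, Finset.sum_mul]
      refine Finset.sum_congr rfl fun k hk => ?_
      rw [Finset.sum_ite_eq, if_pos hk]
    rw [e2, e3]
    ring
  rw [hsum]
  have hN0 : (0 : ℝ) < N := by exact_mod_cast hN
  have hd1 : 0 < x 1 - x 0 := sub_pos.mpr (hm 0 1 (by omega) hN)
  have hd2 : 0 < x N - x (N - 1) := sub_pos.mpr (hm (N - 1) N (by omega) le_rfl)
  have hg : t 1 * (Real.pi - t (N - 1)) =
      (N * (x 1 - x 0) / L) * (N * (x N - x (N - 1)) / L) * (Real.pi / N) ^ 2 := by
    rw [htk, htk]
    have : Real.pi - Real.pi * (x (N - 1) - x 0) / L = Real.pi * (x N - x (N - 1)) / L := by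
      rw [eq_div_iff hL.ne', sub_mul, div_mul_cancel₀ _ hL.ne', hLd]
      ring
    rw [this]
    field_simp
  have hlg : Real.log (t 1 * (Real.pi - t (N - 1))) =
      Real.log ((N * (x 1 - x 0) / L) * (N * (x N - x (N - 1)) / L)) +
        2 * (Real.log Real.pi - Real.log N) := by
    rw [hg, Real.log_mul (by positivity) (by positivity), Real.log_pow,
      Real.log_div hpi.ne' hN0.ne']
    push_cast
    ring
  rw [hlg, Real.log_div two_ne_zero hN0.ne'] at hK
  rw [Real.log_div two_ne_zero hpi.ne', Real.log_div hL.ne' hN0.ne',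
    Real.log_div hL.ne' hpi.ne']
  linarith

end Pool.Agent.H47.IR
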