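import Pool.Agent.H86.IR.Targets2

set_option autoImplicit false

namespace Pool.Agent.H47.IR

open Pool.Agent.H86.IR MeasureTheory

/-- PSD: the Cauchy kernel -/
theorem psd : T_PSD := by
  intro s x α hx
  have hint : ∀ k ∈ s, ∀ j ∈ s, IntegrableOn
      (fun t : ℝ => α k * α j * Real.exp (-(x k + x j) * t)) (Set.Ioi 0) := by
    intro k hk j hj
    have : -(x k + x j) < 0 := by have := hx k hk; have := hx j hj; linarith
    exact (integrableOn_exp_mul_Ioi this 0).const_mul _
  have hval : ∀ k ∈ s, ∀ j ∈ s, ∫ t in Set.Ioi (0 : ℝ),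
      α k * α j * Real.exp (-(x k + x j) * t) = α k * α j / (x k + x j) := by
    intro k hk j hj
    have h1 : -(x k + x j) < 0 := by have := hx k hk; have := hx j hj; linarith
    have h2 : x k + x j ≠ 0 := by have := hx k hk; have := hx j hj; positivity
    rw [integral_const_mul, integral_exp_mul_Ioi h1 0]
    simp only [mul_zero, Real.exp_zero]
    field_simp
  have hsq : ∀ t : ℝ, (∑ k ∈ s, α k * Real.exp (-(x k) * t)) ^ 2 =
      ∑ k ∈ s, ∑ j ∈ s, α k * α j * Real.exp (-(x k + x j) * t) := by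
    intro t
    rw [sq, Finset.sum_mul_sum]
    refine Finset.sum_congr rfl fun k _ => Finset.sum_congr rfl fun j _ => ?_
    have : -(x k + x j) * t = -(x k) * t + -(x j) * t := by ring
    rw [this, Real.exp_add]
    ring
  have h0 : 0 ≤ ∫ t in Set.Ioi (0 : ℝ), (∑ k ∈ s, α k * Real.exp (-(x k) * t)) ^ 2 :=
    integral_nonneg fun t => sq_nonneg _
  have h1 : ∫ t in Set.Ioi (0 : ℝ), (∑ k ∈ s, α k * Real.exp (-(x k) * t)) ^ 2 =
      ∑ k ∈ s, ∑ j ∈ s, α k * α j / (x k + x j) := by
    simp_rw [hsq]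
    rw [integral_finsetSum _ fun k hk => integrable_finsetSum _ fun j hj => hint k hk j hj]
    refine Finset.sum_congr rfl fun k hk => ?_
    rw [integral_finsetSum _ fun j hj => hint k hk j hj]
    exact Finset.sum_congr rfl fun j hj => hval k hk j hj
  rw [← h1]
  exact h0

end Pool.Agent.H47.IR
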