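import Pool.Agent.H86.IR.Targets2

set_option autoImplicit false

namespace Pool.Agent.H47.IR

open Pool.Agent.H86.IR

/-- REF: reflected sequences -/
theorem ref : T_REF := by
  intro N t f hN h0 hp hf
  obtain ⟨M, rfl⟩ : ∃ M, N = M + 1 := ⟨N - 1, by omega⟩
  have hL : ∑ i ∈ Finset.range (2 * (M + 1)),
      (-1 : ℝ) ^ i * f (if i ≤ M + 1 then t i else 2 * Real.pi - t (2 * (M + 1) - i)) =
      (f (t 0) + ∑ i ∈ Finset.range M, (-1 : ℝ) ^ (i + 1) * f (t (i + 1)) +
        (-1 : ℝ) ^ (M + 1) * f (t (M + 1))) +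
      ∑ i ∈ Finset.range M, (-1 : ℝ) ^ (i + 1) * f (2 * Real.pi - t (i + 1)) := by
    have e : 2 * (M + 1) = (M + 2) + M := by ring
    rw [e, Finset.sum_range_add]
    congr 1
    · rw [Finset.sum_range_succ, Finset.sum_range_succ']
      have a1 : ∑ k ∈ Finset.range M, (-1 : ℝ) ^ (k + 1) *
          f (if k + 1 ≤ M + 1 then t (k + 1) else 2 * Real.pi - t (M + 2 + M - (k + 1))) =
          ∑ i ∈ Finset.range M, (-1 : ℝ) ^ (i + 1) * f (t (i + 1)) := by
        refine Finset.sum_congr rfl fun k hk => ?_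
        have := Finset.mem_range.mp hk
        rw [if_pos (by omega)]
      rw [a1, if_pos (by omega), if_pos (by omega)]
      simp only [pow_zero, one_mul]
      ring
    · rw [← Finset.sum_range_reflect (fun i => (-1 : ℝ) ^ (i + 1) *
        f (2 * Real.pi - t (i + 1))) M]
      refine Finset.sum_congr rfl fun k hk => ?_
      have hk' := Finset.mem_range.mp hk
      have e1 : M + 2 + M - (M + 2 + k) = M - 1 - k + 1 := by omega
      have e2 : (-1 : ℝ) ^ (M + 2 + k) = (-1 : ℝ) ^ (M - 1 - k + 1) := by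
        have : M + 2 + k = (M - 1 - k + 1) + 2 * (k + 1) := by omega
        rw [this, pow_add, pow_mul]
        simp
      rw [if_neg (by omega), e1, e2]
  have hR : ∑ k ∈ Finset.range (M + 1 + 1), wt (M + 1) k * (f (t k) + f (2 * Real.pi - t k)) =
      1 / 2 * (f (t 0) + f (2 * Real.pi - t 0)) +
      ∑ i ∈ Finset.range M, (-1 : ℝ) ^ (i + 1) * (f (t (i + 1)) + f (2 * Real.pi - t (i + 1))) +
      (-1 : ℝ) ^ (M + 1) / 2 * (f (t (M + 1)) + f (2 * Real.pi - t (M + 1))) := by
    rw [Finset.sum_range_succ, Finset.sum_range_succ']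
    have a1 : ∑ k ∈ Finset.range M, wt (M + 1) (k + 1) *
        (f (t (k + 1)) + f (2 * Real.pi - t (k + 1))) =
        ∑ i ∈ Finset.range M, (-1 : ℝ) ^ (i + 1) *
          (f (t (i + 1)) + f (2 * Real.pi - t (i + 1))) := by
      refine Finset.sum_congr rfl fun k hk => ?_
      have := Finset.mem_range.mp hk
      have : wt (M + 1) (k + 1) = (-1 : ℝ) ^ (k + 1) := by
        unfold wt
        rw [if_neg (by omega), if_neg (by omega)]
      rw [this]
    have a2 : wt (M + 1) 0 = 1 / 2 := by simp [wt]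
    have a3 : wt (M + 1) (M + 1) = (-1 : ℝ) ^ (M + 1) / 2 := by simp [wt]
    rw [a1, a2, a3]
    ring
  rw [hL, hR, h0, hp, sub_zero, hf]
  have e3 : 2 * Real.pi - Real.pi = Real.pi := by ring
  rw [e3]
  have e4 : ∑ i ∈ Finset.range M, (-1 : ℝ) ^ (i + 1) * (f (t (i + 1)) +
      f (2 * Real.pi - t (i + 1))) =
      ∑ i ∈ Finset.range M, (-1 : ℝ) ^ (i + 1) * f (t (i + 1)) +
      ∑ i ∈ Finset.range M, (-1 : ℝ) ^ (i + 1) * f (2 * Real.pi - t (i + 1)) := by
    rw [← Finset.sum_add_distrib]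
    exact Finset.sum_congr rfl fun k _ => by ring
  rw [e4]
  ring

end Pool.Agent.H47.IR
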